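import Pool.Agent.U259.WQ.Unb
import Pool.Agent.Y63.NV.PeL

/-!
# Navarro's blockwise conjecture for `p`-group extensions is a congruence modulo any fixed integer

The definitions `IsBlock`, `IsInvBlock`, `numIBr`, `numDz`, `InDefect` are those of the files
`Pool/Agent/Y63/NV/{Defs,Stm3}.lean`: for a normal subgroup `G` of `Γ` and a block `B` of `G`, `numIBr G B`
is the number of the `Γ`-invariant irreducible characters of `G` over `F` in `B`, and `numDz p red G Q B`
the number of the characters of `N_Γ(Q)/Q` of `p`-defect zero such that the block of `Γ` induced by the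
block of the inflation covers `B`. `Wr q G` is the wreath product `G ≀ C_q`.

Proof. The case `G = Γ` is Alperin's weight conjecture `l(B) = w(B)`. Let `S(B)` be the alternating sum
of the numbers of ordinary characters of the stabilisers `G_σ` of chains of nontrivial `p`-subgroups in
blocks which induce `B`. If `q` divides all differences `l(B) - w(B)` for the groups in the class, it
divides `S(B)` for all blocks of positive defect, because `S(B)` is the alternating sum of these
differences for the groups `G_σ`. The recursions `q S(G ≀ C_q, e') = S(G, e)^q + (q² - 1) S(G, e)`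
(`q ≠ p`) and `p S(G ≀ C_p, e') = S(G, e)^p - S(G, e)` then show that all powers of `q` divide all `S(B)`,
so `S(B) = 0`. This implies Alperin's conjecture for the class (Knörr, Robinson), and, by the starting
result `EquivalentToWeights`, Navarro's equality for all pairs.
-/

set_option autoImplicit false

open scoped Classical

noncomputable section

namespace Pool.Agent.Results.MP_0c8ca5_al.CongruenceModAnyInteger

open Pool.Agent.Y63.NV
open Pool.Agent.Y63.AWC (pSubgroupSetoid)
open Pool.Agent.N85.WM (Wr)

/-- The right-hand side of Navarro's equality: the sum of the numbers `numDz p red G Q B` over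
representatives `Q` of the `Γ`-classes of `Θ_B`, the set of the `p`-subgroups `Q` of `Γ` with `GQ = Γ` such
that `Q ∩ G` is contained in a defect group of `B`. -/
def navarroSum (p : ℕ) {F : Type} [Field F] (red : integralClosure ℤ ℂ →+* F) {Γ : Type} [Group Γ]
    (G : Subgroup Γ) (B : (G → F) → F) : ℕ :=
  ∑ᶠ c : Quotient (pSubgroupSetoid p Γ),
    if G ⊔ c.out.1 = ⊤ ∧ InDefect p G B c.out.1 then numDz p red G c.out.1 B else 0

/-- The relation `R` holds for the two sides of Navarro's equality
`|IBr_Γ(B)| = ∑_Q |dz(N_Γ(Q)/Q | B)|`, for all finite groups `Γ`, all normal subgroups `N ≤ G` of `Γ` such that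
`N` belongs to `X`, `Γ/N` is a `p`-group and `P` holds, and all `Γ`-invariant blocks `B` of `G`. -/
def Navarro (p : ℕ) {F : Type} [Field F] (red : integralClosure ℤ ℂ →+* F)
    (X : ∀ (Γ : Type) [Group Γ], Prop) (P : ∀ (Γ : Type) [Group Γ], Subgroup Γ → Subgroup Γ → Prop)
    (R : ℕ → ℕ → Prop) : Prop :=
  ∀ (Γ : Type) [Group Γ] [Finite Γ] (N G : Subgroup Γ) [N.Normal] [G.Normal], N ≤ G → X N →
    IsPGroup p (Γ ⧸ N) → P Γ N G →
    ∀ B : (G → F) → F, IsBlock B → IsInvBlock G B → R (numIBr G B) (navarroSum p red G B)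

/-- A class of groups closed under isomorphisms, subgroups and quotients by normal `p`-subgroups. -/
structure ClosedClass (p : ℕ) (X : ∀ (G : Type) [Group G], Prop) : Prop where
  iso : ∀ (G H : Type) [Group G] [Group H], (G ≃* H) → X G → X H
  sub : ∀ (G : Type) [Group G] (H : Subgroup G), X G → X H
  quot : ∀ (G : Type) [Group G] (M : Subgroup G) [M.Normal], IsPGroup p M → X G → X (G ⧸ M)

theorem sum_up (p : ℕ) [Fact p.Prime] {F : Type} [Field F] [IsAlgClosed F] [CharP F p]
    (red : integralClosure ℤ ℂ →+* F) {G : Type} [Group G] [Finite G] {B : (G → F) → F}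
    (hB : IsBlock B) : navarroSum p red (⊤ : Subgroup G) (up B) =
      Pool.Agent.N85.WM.numWts p red B := by
  unfold navarroSum Pool.Agent.N85.WM.numWts
  refine finsum_congr fun c => ?_
  by_cases h2 : InDefect p (⊤ : Subgroup G) (up B) c.out.1
  · rw [if_pos ⟨top_sup_eq _, h2⟩, numDz_eq]
    rfl
  · rw [if_neg (fun h => h2 h.2)]
    by_contra h3
    refine h2 (wdef' p F red G ⊤ (up B) (up_block hB) (up_inv B) c.out.1 c.out.2 ?_)
    rw [numDz_eq]
    exact fun h => h3 h.symm

/-- **Navarro's blockwise conjecture for `p`-group extensions is a congruence modulo any fixed integer.**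
Let `q` be any prime and `m` a multiple of `q`. Let `X` be a class of groups (e.g. of all groups) which is
closed under isomorphisms, subgroups, quotients by normal `p`-subgroups and, for finite groups, under
`G ↦ G ≀ C_q`. The following are equivalent.
(a) Navarro's equality holds for all finite groups `Γ`, all normal subgroups `G` of `Γ` which contain a
normal subgroup `N` of `Γ` in `X` such that `Γ/N` is a `p`-group (e.g. `N = G`), and all `Γ`-invariant
blocks of `G`.
(b) For all these pairs and blocks the two sides are congruent modulo `m`.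
(c) The same for the pairs with `N = G = Γ`, that is, `l(B)` and the number of weights of `B` are congruent
modulo `m` for all blocks `B` of all finite groups in `X`.
So Navarro's conjecture for `p` (`X` the class of all groups) holds if and only if there is an `m ≥ 2`
such that the two sides are always congruent modulo `m`. -/
theorem result (p : ℕ) [Fact p.Prime] (F : Type) [Field F] [IsAlgClosed F] [CharP F p]
    (red : integralClosure ℤ ℂ →+* F) :
    (∀ (q m : ℕ) [Fact q.Prime], q ∣ m → ∀ X : ∀ (G : Type) [Group G], Prop, ClosedClass p X →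
      (∀ (G : Type) [Group G] [Finite G], X G → X (Wr q G)) →
      (Navarro p red X (fun _ _ _ _ => True) (fun a b => a = b) ↔
        Navarro p red X (fun _ _ _ _ => True) (fun a b => a ≡ b [MOD m])) ∧
      (Navarro p red X (fun _ _ _ _ => True) (fun a b => a = b) ↔
        Navarro p red X (fun _ _ N G => N = ⊤ ∧ G = ⊤) (fun a b => a ≡ b [MOD m]))) ∧
    ∀ m : ℕ, 2 ≤ m →
      (Navarro p red (fun _ _ => True) (fun _ _ N G => N = G) (fun a b => a = b) ↔
        Navarro p red (fun _ _ => True) (fun _ _ N G => N = G) (fun a b => a ≡ b [MOD m])) := by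
  have main : ∀ (q m : ℕ) [Fact q.Prime], q ∣ m → ∀ X : ∀ (G : Type) [Group G], Prop,
      ClosedClass p X → (∀ (G : Type) [Group G] [Finite G], X G → X (Wr q G)) →
      Navarro p red X (fun _ _ N G => N = ⊤ ∧ G = ⊤) (fun a b => a ≡ b [MOD m]) →
      Navarro p red X (fun _ _ _ _ => True) (fun a b => a = b) := by
    intro q m _ hqm X hX hwr h Γ _ _ N G _ _ hNG hN hp _
    have hX' : Closed p X := ⟨fun G H _ _ hG ⟨e⟩ => hX.iso G H e hG,
      fun G _ hG H => hX.sub G H hG, fun G _ hG M _ hM => hX.quot G M hM hG⟩
    have h1 : ∀ (G : Type) [Group G] [Finite G], X G → BAWC p red G :=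
      Pool.Agent.U259.WQ.bawc_of_mod red q X hX' hwr (fun G _ _ hG B hB => by
        have h3 := h G ⊤ ⊤ le_rfl (hX.iso _ _ Subgroup.topEquiv.symm hG) (pgroup_top p G)
          ⟨rfl, rfl⟩ (up B) (up_block hB) (up_inv B)
        rw [sum_up p red hB, numIBr_eq] at h3
        exact h3.of_dvd hqm)
    exact (block_strong (p := p) red X hX').1
      (fun H _ _ hH _ => (theta_iff p F red H ⊤).2 ((bawc_iff p red).1 (h1 H hH))) Γ N G hNG hN hp
  have w1 : ∀ (m : ℕ) (X : ∀ (G : Type) [Group G], Prop),
      Navarro p red X (fun _ _ _ _ => True) (fun a b => a = b) →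
      Navarro p red X (fun _ _ _ _ => True) (fun a b => a ≡ b [MOD m]) := by
    intro m X h Γ _ _ N G _ _ hNG hN hp hP B hB hI
    rw [h Γ N G hNG hN hp hP B hB hI]
  have w2 : ∀ (m : ℕ) (X : ∀ (G : Type) [Group G], Prop),
      Navarro p red X (fun _ _ _ _ => True) (fun a b => a ≡ b [MOD m]) →
      Navarro p red X (fun _ _ N G => N = ⊤ ∧ G = ⊤) (fun a b => a ≡ b [MOD m]) :=
    fun m X h Γ _ _ N G _ _ hNG hN hp _ B hB hI => h Γ N G hNG hN hp trivial B hB hI
  refine ⟨fun q m _ hqm X hX hwr => ⟨⟨w1 m X, fun h => main q m hqm X hX hwr (w2 m X h)⟩,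
    ⟨fun h => w2 m X (w1 m X h), main q m hqm X hX hwr⟩⟩, fun m hm => ⟨?_, ?_⟩⟩
  · intro h Γ _ _ N G _ _ hNG hN hp hP B hB hI
    rw [h Γ N G hNG hN hp hP B hB hI]
  · intro h Γ _ _ N G _ _ hNG hN hp hP B hB hI
    have : Fact m.minFac.Prime := ⟨Nat.minFac_prime (by omega)⟩
    refine main m.minFac m m.minFac_dvd (fun _ _ => True)
      ⟨fun _ _ _ _ _ _ => trivial, fun _ _ _ _ => trivial, fun _ _ _ _ _ _ => trivial⟩
      (fun _ _ _ _ => trivial) ?_ Γ N G hNG hN hp trivial B hB hI
    intro Γ _ _ N G _ _ hNG hN hp hP B hB hI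
    exact h Γ N G hNG hN hp (hP.1.trans hP.2.symm) B hB hI

end Pool.Agent.Results.MP_0c8ca5_al.CongruenceModAnyInteger
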