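import Pool.Agent.U9.AW.Bnd
import Pool.Agent.U259.AQ.Fin
import Pool.Agent.Y63.NV.Free2

/-!
# Navarro's conjecture for `p`-group extensions, all blocks together: weak bounds on one residue class

For a normal subgroup `G` of a finite group `Γ` such that `Γ/G` is a `p`-group let `a(Γ, G)` be the number of
the `Γ`-invariant irreducible characters of `G` over `F` (`numInvIrr F G`), and `b(Γ, G)` the number of
the weights over `G`: the sum over the `Γ`-classes of `p`-subgroups `Q` with `G Q = Γ` of the numbers of
the characters of `N_Γ(Q)/Q` of `p`-defect zero (`numWtsOver p G`). These are the sums over all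
`Γ`-invariant blocks `B` of `G` of the two sides of Navarro's equality.

Let `X` be a class of groups closed under isomorphisms, subgroups, quotients by normal `p`-subgroups,
direct products and wreath products with cyclic groups of prime order, which contains the cyclic groups
of order prime to `p` (for instance all groups). Fix one residue class `r` modulo one `m ≥ 1`.

Theorem. `a(Γ, G) = b(Γ, G)` for all `Γ`, `G` such that `G` contains a normal subgroup `N` of `Γ` in `X`
with `Γ/N` a `p`-group, if and only if for those `Γ`, `G` with `a - b ≡ r mod m` the numbers `a` and `b`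
differ at most by factors `|Γ| ^ o(1)`. It is even sufficient that this holds for `N = G = Γ`.

Proof. By the library theorem `free_form` (`Pool/Agent/Y63/NV`, the block-free form of the starting result
`EquivalentToWeights`) it is sufficient to prove `a(H, H) = b(H, H)` for the groups `H` in `X`. Here `a` and
`b` are multiplicative and there are recursions for `H ≀ C_q`, by the engine `Pool/Agent/U259/AQ` of
helper259. If `a ≠ b` for one `H`, then there are `G₁` in `X` such that `a - b ≠ 0` is prime to `m` and, for
each `k`, groups `K` in `X` with `a = b ≡ k mod m`, `a > 0`; for `n ≡ 1 mod φ(m)` and a suitable `K` of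
bounded order the difference for `G₁ ^ n × K` is `r` modulo `m`, and `a / b` is a power of the order of this
group with a fixed exponent different from zero (`Pool/Agent/U9/AW/Bnd.lean`).
-/

set_option autoImplicit false

noncomputable section

open scoped Classical

namespace Pool.Agent.Results.MP_0c8ca5_al.ResidueClassBounds

open Pool.Agent.Y63.AWC (numRegularClasses numWeights pSubgroupSetoid numDefectZero)
open Pool.Agent.Y63.NV (Closed numInvIrr NavarroSum)
open Pool.Agent.N85.WM (Wr)

/-- The closure properties of the class `X`: it is closed under isomorphisms, subgroups and quotients by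
normal `p`-subgroups (`Closed`), it contains the cyclic groups of order prime to `p`, and it is closed
under direct products of finite groups and wreath products of finite groups with cyclic groups of prime
order. -/
def ClosedClass (p : ℕ) (X : ∀ (G : Type) [Group G], Prop) : Prop :=
  Closed p X ∧
  (∀ (n : ℕ) [NeZero n], ¬ p ∣ n → X (Multiplicative (ZMod n))) ∧
  (∀ (G H : Type) [Group G] [Group H] [Finite G] [Finite H], X G → X H → X (G × H)) ∧
  ∀ (q : ℕ) [Fact q.Prime] (G : Type) [Group G] [Finite G], X G → X (Wr q G)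

/-- The number of weights over `G`: the sum over the `Γ`-classes of `p`-subgroups `Q` of `Γ` with `G Q = Γ`
of the numbers of the characters of `N_Γ(Q)/Q` of `p`-defect zero. -/
def numWtsOver (p : ℕ) {Γ : Type} [Group Γ] (G : Subgroup Γ) : ℕ :=
  ∑ᶠ c : Quotient (pSubgroupSetoid p Γ),
    if G ⊔ c.out.1 = ⊤ then
      numDefectZero p (Subgroup.normalizer (c.out.1 : Set Γ) ⧸
        c.out.1.subgroupOf (Subgroup.normalizer (c.out.1 : Set Γ))) else 0

/-- `P` holds for all normal subgroups `G` of finite groups `Γ` such that `G` contains a normal subgroup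
`N` of `Γ` in the class `X` for which `Γ/N` is a `p`-group. -/
def Over (p : ℕ) (X : ∀ (G : Type) [Group G], Prop)
    (P : ∀ (Γ : Type) [Group Γ], Subgroup Γ → Prop) : Prop :=
  ∀ (Γ : Type) [Group Γ] [Finite Γ] (N G : Subgroup Γ) [N.Normal] [G.Normal], N ≤ G → X N →
    IsPGroup p (Γ ⧸ N) → P Γ G

/-- If the difference `a(Γ, G) - b(Γ, G)` is `r` modulo `m`, then `a(Γ, G)` and `b(Γ, G)` differ at most by the
factor `C |Γ| ^ ε`. -/
def Near (p : ℕ) (F : Type) [Field F] (m : ℕ) (r : ℤ) (C ε : ℝ) (Γ : Type) [Group Γ]
    (G : Subgroup Γ) : Prop :=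
  (m : ℤ) ∣ (numInvIrr F G : ℤ) - numWtsOver p G - r →
    (numInvIrr F G : ℝ) ≤ C * (Nat.card Γ : ℝ) ^ ε * numWtsOver p G ∧
    (numWtsOver p G : ℝ) ≤ C * (Nat.card Γ : ℝ) ^ ε * numInvIrr F G

theorem a_top (p : ℕ) [Fact p.Prime] (F : Type) [Field F] [IsAlgClosed F] [CharP F p]
    (H : Type) [Group H] [Finite H] : numInvIrr F (⊤ : Subgroup H) = numRegularClasses p H := by
  rw [← Pool.Agent.Y63.NV.lnum_unit,
    Pool.Agent.Y63.NV.lreg' p F H ⊤ (Pool.Agent.Y63.NV.pgroup_top p H),
    Pool.Agent.Y63.NV.invReg_top]

theorem b_top (p : ℕ) (H : Type) [Group H] : numWtsOver p (⊤ : Subgroup H) = numWeights p H := by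
  unfold numWtsOver numWeights
  refine finsum_congr fun c => ?_
  rw [if_pos (top_sup_eq _)]

theorem inv_w (p : ℕ) [Fact p.Prime] : Pool.Agent.U9.AW.Inv p (fun G [Group G] => numWeights p G) where
  cyc n _ h := (Pool.Agent.U259.AQ.lw_cyc (p := p) n h).2
  prod _ _ _ _ _ _ := Pool.Agent.U259.AQ.w_prod
  wr q _ G _ _ := Pool.Agent.U259.AQ.w_all q G

theorem inv_l (p : ℕ) [Fact p.Prime] :
    Pool.Agent.U9.AW.Inv p (fun G [Group G] => numRegularClasses p G) where
  cyc n _ h := (Pool.Agent.U259.AQ.lw_cyc (p := p) n h).1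
  prod G K _ _ _ _ := Pool.Agent.U259.AQ.l_prod G K
  wr q _ G _ _ := Pool.Agent.U259.AQ.l_all q G

/-- **Navarro's conjecture for all blocks together is decided by subpolynomial bounds on one residue
class.** Let `p` be a prime, `F` an algebraically closed field of characteristic `p`, `m ≥ 1` and `r`
integers and `X` a class of groups with the closure properties `ClosedClass`. For a normal subgroup `G` of
a finite group `Γ` let `a(Γ, G) = numInvIrr F G` be the number of the `Γ`-invariant irreducible characters
of `G` over `F` and `b(Γ, G) = numWtsOver p G` the number of the weights over `G`. The following are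
equivalent.
(1) `a(Γ, G) = b(Γ, G)` for all `Γ`, `G` such that `G` contains a normal subgroup `N` of `Γ` in `X` for which
`Γ/N` is a `p`-group.
(2) For every `ε > 0` there is a `C` such that for all these `Γ`, `G` with `a(Γ, G) - b(Γ, G) ≡ r mod m`
`a(Γ, G) ≤ C |Γ| ^ ε b(Γ, G)` and `b(Γ, G) ≤ C |Γ| ^ ε a(Γ, G)`.
(3) The same, only for `N = G = Γ`: for every `ε > 0` there is a `C` such that the two inequalities hold
for `(H, H)` for all finite groups `H` in `X` with `a(H, H) - b(H, H) ≡ r mod m`. -/
theorem result (p : ℕ) [Fact p.Prime] (F : Type) [Field F] [IsAlgClosed F] [CharP F p]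
    (m : ℕ) (hm : m ≠ 0) (r : ℤ) (X : ∀ (G : Type) [Group G], Prop) (hX : ClosedClass p X) :
    [Over p X (fun _ [Group _] G => numInvIrr F G = numWtsOver p G),
      ∀ ε : ℝ, 0 < ε → ∃ C : ℝ, Over p X (fun Γ [Group Γ] G => Near p F m r C ε Γ G),
      ∀ ε : ℝ, 0 < ε → ∃ C : ℝ, ∀ (H : Type) [Group H] [Finite H], X H →
        Near p F m r C ε H (⊤ : Subgroup H)].TFAE := by
  have hp : p.Prime := Fact.out
  obtain ⟨hXc, hc, hpr, hw⟩ := hX
  have hcls : Pool.Agent.U9.AW.Cls p X := ⟨hc, hpr, hw⟩
  tfae_have 1 → 2 := by
    intro h ε hε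
    refine ⟨1, fun Γ _ _ N G _ _ h1 h2 h3 _ => ?_⟩
    have h4 := h Γ N G h1 h2 h3
    have h5 : (1 : ℝ) ≤ (Nat.card Γ : ℝ) ^ ε := by
      refine Real.one_le_rpow ?_ hε.le
      have : 0 < Nat.card Γ := Nat.card_pos
      exact_mod_cast this
    rw [h4, one_mul]
    exact ⟨le_mul_of_one_le_left (Nat.cast_nonneg _) h5,
      le_mul_of_one_le_left (Nat.cast_nonneg _) h5⟩
  tfae_have 2 → 3 := by
    intro h ε hε
    obtain ⟨C, hC⟩ := h ε hε
    refine ⟨C, fun H _ _ hH => hC H ⊤ ⊤ le_rfl ?_ (Pool.Agent.Y63.NV.pgroup_top p H)⟩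
    exact hXc.iso _ _ hH ⟨Subgroup.topEquiv.symm⟩
  tfae_have 3 → 1 := by
    intro h
    have h1 : ∀ (H : Type) [Group H] [Finite H], X H → numRegularClasses p H ≤ numWeights p H := by
      refine Pool.Agent.U9.AW.main hp hcls (inv_w p) (inv_l p) hm r fun ε hε => ?_
      obtain ⟨C, hC⟩ := h ε hε
      refine ⟨C, fun H _ _ hH hd => ?_⟩
      have h2 := hC H hH
      unfold Near at h2
      rw [a_top p F, b_top] at h2
      exact (h2 hd).1
    have h2 : ∀ (H : Type) [Group H] [Finite H], X H → numWeights p H ≤ numRegularClasses p H := by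
      refine Pool.Agent.U9.AW.main hp hcls (inv_l p) (inv_w p) hm (-r) fun ε hε => ?_
      obtain ⟨C, hC⟩ := h ε hε
      refine ⟨C, fun H _ _ hH hd => ?_⟩
      have h2 := hC H hH
      unfold Near at h2
      rw [a_top p F, b_top] at h2
      refine (h2 ?_).2
      have h3 : (numRegularClasses p H : ℤ) - numWeights p H - r =
          -((numWeights p H : ℤ) - numRegularClasses p H - -r) := by ring
      rw [h3]
      exact (dvd_neg).2 hd
    intro Γ _ _ N G _ _ hNG hN hΓN
    have h3 := (Pool.Agent.Y63.NV.free_strong p F X hXc).1 (fun H _ _ hH _ =>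
      (Pool.Agent.Y63.NV.navarroSum_top p F H).2 (le_antisymm (h1 H hH) (h2 H hH)))
      Γ N G hNG hN hΓN
    exact h3
  tfae_finish

end Pool.Agent.Results.MP_0c8ca5_al.ResidueClassBounds
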