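import Pool.Agent.U259.UV.Nav

/-!
# Navarro's blockwise conjecture for `p`-group extensions: a weak upper bound decides

The definitions `IsBlock`, `IsInvBlock`, `numIBr`, `numDz`, `InDefect` are those of the files
`Pool/Agent/Y63/NV/{Defs,Stm3}.lean`: for a normal subgroup `G` of `Γ` and a block `B` of `G`, `numIBr G B`
is the number of the `Γ`-invariant irreducible characters of `G` over `F` in `B`, and `numDz p red G Q B`
the number of the characters of `N_Γ(Q)/Q` of `p`-defect zero such that the block of `Γ` induced by the
block of the inflation covers `B`. `numDzBlock p red B` is the number of the complex irreducible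
characters of defect zero in `B`; it is `0` if and only if the defect groups of `B` are nontrivial.
`Wr q G` is the wreath product `G ≀ C_q`.

Proof. Let `B` be a block with nontrivial defect groups. It has at least two irreducible characters
(`Pool.Agent.U259.UV.two_of_noDz`: otherwise its only character would vanish on the `p`-singular elements,
by Osima's theorem, and have defect zero). Hence, for every prime `q`, all characters of `G ≀ C_q` over
`B ⊗ ⋯ ⊗ B` belong to the same block `B'` (`Pool.Agent.U259.UB.uniq`), and `q S(B') = S(B)^q + a S(B)`,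
`a = q² - 1` for `q ≠ p` and `a = -1` for `q = p`.
If `S(B) ≠ 0` for one block, then `S(B × B) ≥ 1`, so `S ≥ q ≥ 2` for the block of the wreath product
`(G × G) ≀ C_q` over it, `q ≠ p`; its powers have exponential growth. So the bound implies that all `S(B)`
vanish, hence the blockwise weight conjecture for the class (Knörr, Robinson), hence Navarro's equality
(starting result `EquivalentToWeights`).
-/

set_option autoImplicit false

open scoped Classical

noncomputable section

namespace Pool.Agent.Results.MP_0c8ca5_al.UpperBoundDecides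

open Pool.Agent.Y63.NV
open Pool.Agent.Y63.AWC (pSubgroupSetoid)
open Pool.Agent.Y63.KR (alternatingSum)
open Pool.Agent.N85.WM (Wr)

/-- The alternating sum `S(B) = ∑_σ (-1)^|σ| k(B_σ)` over representatives `σ` of the `G`-classes of chains
of nontrivial `p`-subgroups of `G`, the empty chain included; `k(B_σ)` is the number of the complex
irreducible characters `ϑ` of the stabiliser `G_σ` with `bl(ϑ)^G = B`. -/
def S (p : ℕ) {F : Type} [Field F] (red : integralClosure ℤ ℂ →+* F) {G : Type} [Group G]
    (B : (G → F) → F) : ℤ :=
  alternatingSum p G (fun H => (numIrrInd red H B : ℤ))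

/-- `G` has no nontrivial normal `p`-subgroup, and `B` is a block of `G` without characters of defect
zero, that is, with nontrivial defect groups. -/
structure Adm (p : ℕ) {F : Type} [Field F] (red : integralClosure ℤ ℂ →+* F) {G : Type} [Group G]
    (B : (G → F) → F) : Prop where
  op : ∀ P : Subgroup G, P.Normal → IsPGroup p P → P = ⊥
  block : IsBlock B
  defect : numDzBlock p red B = 0

/-- A class of groups closed under isomorphisms, subgroups, direct products and quotients by normal
`p`-subgroups. -/
structure ClosedClass (p : ℕ) (X : ∀ (G : Type) [Group G], Prop) : Prop where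
  iso : ∀ (G H : Type) [Group G] [Group H], (G ≃* H) → X G → X H
  sub : ∀ (G : Type) [Group G] (H : Subgroup G), X G → X H
  prod : ∀ (G H : Type) [Group G] [Group H], X G → X H → X (G × H)
  quot : ∀ (G : Type) [Group G] (M : Subgroup G) [M.Normal], IsPGroup p M → X G → X (G ⧸ M)

/-- The right-hand side of Navarro's equality: the sum of the numbers `numDz p red G Q B` over
representatives `Q` of the `Γ`-classes of `Θ_B`, the set of the `p`-subgroups `Q` of `Γ` with `GQ = Γ` such
that `Q ∩ G` is contained in a defect group of `B`. -/
def navarroSum (p : ℕ) {F : Type} [Field F] (red : integralClosure ℤ ℂ →+* F) {Γ : Type} [Group Γ]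
    (G : Subgroup Γ) (B : (G → F) → F) : ℕ :=
  ∑ᶠ c : Quotient (pSubgroupSetoid p Γ),
    if G ⊔ c.out.1 = ⊤ ∧ InDefect p G B c.out.1 then numDz p red G c.out.1 B else 0

/-- Navarro's equality `|IBr_Γ(B)| = ∑_Q |dz(N_Γ(Q)/Q | B)|`, for all finite groups `Γ`, all normal subgroups
`N ≤ G` of `Γ` such that `N` belongs to `X` and `Γ/N` is a `p`-group, and all `Γ`-invariant blocks `B` of
`G`. -/
def Navarro (p : ℕ) {F : Type} [Field F] (red : integralClosure ℤ ℂ →+* F)
    (X : ∀ (Γ : Type) [Group Γ], Prop) : Prop :=
  ∀ (Γ : Type) [Group Γ] [Finite Γ] (N G : Subgroup Γ) [N.Normal] [G.Normal], N ≤ G → X N →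
    IsPGroup p (Γ ⧸ N) → ∀ B : (G → F) → F, IsBlock B → IsInvBlock G B →
      numIBr G B = navarroSum p red G B

/-- **Navarro's blockwise conjecture for `p`-group extensions: a weak upper bound decides.** Let `p` and
`q ≠ p` be primes and `X` a class of groups closed under isomorphisms, subgroups, direct products,
quotients by normal `p`-subgroups and, for finite groups, under `G ↦ G ≀ C_q` (e.g. all groups). Then
Navarro's equality holds for all finite groups `Γ`, all normal subgroups `G` of `Γ` which contain a normal
subgroup `N` of `Γ` in `X` such that `Γ/N` is a `p`-group (e.g. `N = G`), and all `Γ`-invariant blocks of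
`G`, if and only if for each `ε > 0` there is a `C` with `S(B) ≤ C |G|^ε` for all finite groups `G` in `X`
with `O_p(G) = 1` and all blocks `B` of `G` with nontrivial defect groups. -/
theorem result (p : ℕ) [Fact p.Prime] (F : Type) [Field F] [IsAlgClosed F] [CharP F p]
    (red : integralClosure ℤ ℂ →+* F) (q : ℕ) [Fact q.Prime] (hqp : q ≠ p)
    (X : ∀ (G : Type) [Group G], Prop) (hX : ClosedClass p X)
    (hw : ∀ (G : Type) [Group G] [Finite G], X G → X (Wr q G)) :
    Navarro p red X ↔ ∀ ε : ℝ, 0 < ε → ∃ C : ℝ, ∀ (G : Type) [Group G] [Finite G], X G →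
      ∀ B : (G → F) → F, Adm p red B → (S p red B : ℝ) ≤ C * (Nat.card G : ℝ) ^ ε := by
  have hX' : Closed p X := ⟨fun G H _ _ hG ⟨e⟩ => hX.iso G H e hG,
      fun G _ hG H => hX.sub G H hG, fun G _ hG M _ hM => hX.quot G M hM hG⟩
  have h0 : Navarro p red X ↔ Pool.Agent.U259.UV.Nav p red X := Iff.rfl
  rw [h0, Pool.Agent.U259.UV.nav_iff red hX']
  constructor
  · intro h ε _
    refine ⟨0, fun G _ _ hG B hB => ?_⟩
    have h1 : S p red B = 0 := h G hG B hB.block hB.defect
    rw [h1, Int.cast_zero, zero_mul]
  · intro h G _ _ hG B hB hz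
    by_contra hne
    refine Pool.Agent.U259.UV.no_growth red q hqp hw (fun G H _ _ _ _ => hX.prod G H)
      (Pool.Agent.U259.UV.tot_init red hG hB hz) hne fun ε hε => ?_
    obtain ⟨C, hC⟩ := h ε hε
    refine ⟨C, fun N s hs hs0 => ?_⟩
    obtain ⟨G', _, _, hG', rfl, ho, B', hB', hz', rfl⟩ := Pool.Agent.U259.UV.tot_out red hs0 hs
    exact hC G' hG' B' ⟨ho, hB', hz'⟩

end Pool.Agent.Results.MP_0c8ca5_al.UpperBoundDecides
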